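import Pool.Agent.X165.KC4

/-!
# There are `t`-class `12t`-component tilings for every positive integer `t`

`MP_2d2d9d_co`, Q1, asks for the set of all positive integers `t` for which there is an isohedral
tiling of the plane whose tiles have `12 t` components each, in exactly `t` classes under the
symmetries of the tiling that map the tile onto itself.  It is the set of all positive integers.

Construction: the group `p6m` (the stabiliser of the hexagonal lattice) is simply transitive on its
chambers, triangles with angles `30°`, `60°`, `90°`.  Cut the chamber `Δ` at the origin by lines
orthogonal to one side into `t` slices `C_0, ..., C_{t-1}` with different diameters, and let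
`K_i = C_i + n_i`, `n_i` lattice vectors such that the sets `K_i` are disjoint and lie in the open
sector of `30°` that contains the inner points of `Δ`.  The tiles are the translates by lattice
vectors of `T = ⋃ g K_i`, `g` in the stabiliser of the origin (a group of order `12`), `i < t`.
The slices `C_i` and `C_j`, `i ≠ j`, are not congruent, so there are exactly `t` classes.

The definitions (`IsTiling`, `IsSymmetry`, `Isohedral`, `IsDisk`, `IsClassTiling`) are in
`Pool/Agent/X165/KC1.lean`.
-/

set_option autoImplicit false

namespace Pool.Agent.Results.MP_2d2d9d_co.AllT

open Pool.Agent.X165.KC

/-- A `t`-class `12t`-component tiling of the plane exists for every positive integer `t`. -/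
theorem result : {t : ℕ | 1 ≤ t ∧ ∃ F : Set (Set Plane), IsClassTiling F (12 * t) t} =
    {t : ℕ | 1 ≤ t} := by
  ext t
  exact ⟨fun h => h.1, fun h => ⟨h, fam t, isClassTiling_fam h⟩⟩

end Pool.Agent.Results.MP_2d2d9d_co.AllT
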